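import Pool.Agent.X198.SK.Final

/-!
# MP_87b039_gt, Q1: the answer is no

`P` is the disjoint union of four copies of `ω₁` (well-founded, narrow, order-scattered), so that
`FS(P)` is `(ω₁+1)⁴`, and `K` is the closed set of all `(α, β, γ, δ)` with `α ≤ β`, `γ ≤ δ`, and
`α = β` or `γ = δ = ω₁`.

Proof.  Let `U` be a canonical selector of `K` and `x_b = (b, ω₁, ω₁, ω₁)`.  By pressing down there
are `γ` and uncountably many `b` (call them good) with `x_b' ∈ U(x_b)`, hence `U(x_b') ⊆ U(x_b)`,
for all `γ < b' ≤ b`.  If `(b', c, ω₁, ω₁) ∈ U(x_b')` for all `c > g(b')` and `δ` is closed under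
`g`, then `y = (δ, δ, ω₁, ω₁)` is in the closure of the points `(b', c, ω₁, ω₁)`,
`γ < b' < g(b') < c < δ`, so `y ∈ U(x_b)` for good `b ≥ δ`.  But the height of `y` is at least the
height `α` of `x_b`: the heights of the good `x_b'`, `b' > b`, are larger than `α`, the points
`(δ, δ, b', ω₁)` have at least the same height in `K` as `x_b'`, and they converge to `y`.
-/

open Set

namespace Pool.Agent.Results.MP_87b039_gt.NoCanonicalSelector

open X198SK X198PR

theorem result :
    ∃ (P : Type) (_ : PartialOrder P), Narrow P ∧ OrderScattered P ∧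
      WellFounded (fun a b : P => a < b) ∧
      ∃ K : Set (FS P), IsClosed K ∧ ¬ ∃ U : K → Set K, IsCanonicalSelector U := by
  obtain ⟨Ω, _, _, f, hunc, hctb, hf⟩ := exists_omega1
  have hne : Nonempty Ω := by
    by_contra h
    rw [not_nonempty_iff] at h
    exact hunc (Set.to_countable _)
  refine ⟨Pt Ω, inferInstance, pt_narrow, pt_scattered, ?_, KK Ω, KK_closed, ?_⟩
  · refine Subrelation.wf (r := InvImage (fun a b : Ω => a < b) Pt.val) ?_
      (InvImage.wf Pt.val wellFounded_lt)
    intro p q hpq
    refine lt_of_le_of_ne hpq.le.2 (fun he => hpq.ne ?_)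
    have h2 : p.idx = q.idx := hpq.le.1
    cases p
    cases q
    simp only [Pt.mk.injEq]
    exact ⟨h2, he⟩
  · rintro ⟨U, hU⟩
    exact no_selector hunc hctb U hU

end Pool.Agent.Results.MP_87b039_gt.NoCanonicalSelector
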